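import Pool.Agent.U44.IA.Alg

/-!
The noncomputable cut, invariance of finiteness, and the conclusion.
-/

set_option autoImplicit false

namespace Pool.Agent.U44.IA

open Set Pool.Agent.Helper446 Pool.Agent.Helper446.RE

theorem decEq_c {α : Type} [Primcodable α] {f g : α → ℕ} (hf : Computable f) (hg : Computable g) :
    Computable fun x => decide (f x = g x) :=
  (PrimrecPred.decide (Primrec.eq (α := ℕ))).to_comp.comp (hf.pair hg)

theorem decLt_c {α : Type} [Primcodable α] {f g : α → ℕ} (hf : Computable f) (hg : Computable g) :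
    Computable fun x => decide (f x < g x) :=
  (PrimrecPred.decide Primrec.nat_lt).to_comp.comp (hf.pair hg)

theorem and_c {α : Type} [Primcodable α] {f g : α → Bool} (hf : Computable f) (hg : Computable g) :
    Computable fun x => (f x && g x) := Primrec.and.to_comp.comp hf hg

theorem or_c {α : Type} [Primcodable α] {f g : α → Bool} (hf : Computable f) (hg : Computable g) :
    Computable fun x => (f x || g x) := Primrec.or.to_comp.comp hf hg

theorem not_c {α : Type} [Primcodable α] {f : α → Bool} (hf : Computable f) :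
    Computable fun x => !(f x) := Primrec.not.to_comp.comp hf

/-- The data attached to an enumeration. -/
def mkDat (q : ℕ → ℕ → Bool) (h0 : ∀ c, q c 0 = false) : Dat where
  act := fun n => q n.unpair.1 n.unpair.2 && !(exB (q n.unpair.1) n.unpair.2)
  v := fun n => n.unpair.1
  act0 := by simp [h0]
  vle := fun n => Nat.unpair_left_le n
  inj := by
    intro m n hm hn hv
    rw [Bool.and_eq_true, Bool.not_eq_true', ← Bool.not_eq_true, exB_iff] at hm hn
    have h1 : m.unpair.2 = n.unpair.2 := by
      rcases lt_trichotomy m.unpair.2 n.unpair.2 with h | h | h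
      · exact absurd ⟨_, h, by rw [← hv]; exact hm.1⟩ hn.2
      · exact h
      · exact absurd ⟨_, h, by rw [hv]; exact hn.1⟩ hm.2
    rw [← Nat.pair_unpair m, ← Nat.pair_unpair n, hv, h1]

theorem mkDat_act_iff (q : ℕ → ℕ → Bool) (h0 : ∀ c, q c 0 = false) (c : ℕ) :
    (∃ s, q c s = true) ↔ ∃ n, (mkDat q h0).act n = true ∧ (mkDat q h0).v n = c := by
  constructor
  · intro h
    refine ⟨Nat.pair c (Nat.find h), ?_, ?_⟩
    · show (q (Nat.pair c (Nat.find h)).unpair.1 (Nat.pair c (Nat.find h)).unpair.2 && !(exB (q (Nat.pair c (Nat.find h)).unpair.1) (Nat.pair c (Nat.find h)).unpair.2)) = true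
      rw [Nat.unpair_pair]
      rw [Bool.and_eq_true, Bool.not_eq_true', ← Bool.not_eq_true, exB_iff]
      refine ⟨Nat.find_spec h, ?_⟩
      rintro ⟨i, hi, hq⟩
      exact Nat.find_min h hi hq
    · show (Nat.pair c (Nat.find h)).unpair.1 = c
      rw [Nat.unpair_pair]
  · rintro ⟨n, hn, hv⟩
    have h1 : (q n.unpair.1 n.unpair.2 && !(exB (q n.unpair.1) n.unpair.2)) = true := hn
    rw [Bool.and_eq_true] at h1
    have h2 : n.unpair.1 = c := hv
    exact ⟨n.unpair.2, by rw [← h2]; exact h1.1⟩

theorem mkDat_act_c {q : ℕ → ℕ → Bool} {h0 : ∀ c, q c 0 = false} (hq : Computable₂ q) :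
    Computable (mkDat q h0).act := by
  have hu1 : Computable fun n : ℕ => n.unpair.1 := Computable.fst.comp Computable.unpair
  have hu2 : Computable fun n : ℕ => n.unpair.2 := Computable.snd.comp Computable.unpair
  have hq1 : Computable₂ fun n i : ℕ => q n.unpair.1 i :=
    hq.comp (hu1.comp Computable.fst) Computable.snd
  have h1 : Computable fun n : ℕ => exB (q n.unpair.1) n.unpair.2 :=
    computable_exB hq1 hu2
  have h2 : Computable fun n : ℕ => q n.unpair.1 n.unpair.2 := hq.comp hu1 hu2
  have h3 : Computable fun n : ℕ => !(exB (q n.unpair.1) n.unpair.2) := not_c h1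
  have h4 : Computable fun n : ℕ => (q n.unpair.1 n.unpair.2 && !(exB (q n.unpair.1) n.unpair.2)) :=
    and_c h2 h3
  refine h4.of_eq fun n => ?_
  rfl

theorem mkDat_v_c {q : ℕ → ℕ → Bool} {h0 : ∀ c, q c 0 = false} :
    Computable (mkDat q h0).v := Computable.fst.comp Computable.unpair

namespace Dat

variable (d : Dat)

def DB (s t : ℕ) : Bool :=
  allB (fun u => !(decide (s < u) && d.act u) || decide (d.fv s < d.fv u)) (t + 1)

def leB (x y : ℕ) : Bool :=
  decide (x = y) || ((decide (x < y) && d.DB x y) || (decide (y < x) && !(d.DB y x)))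

theorem DB_iff (s t : ℕ) : d.DB s t = true ↔ d.D s t := by
  unfold DB D
  rw [allB_iff]
  constructor
  · intro h u hu hut ha
    have := h u (by omega)
    rw [Bool.or_eq_true, Bool.not_eq_true', decide_eq_true_iff] at this
    rcases this with h1 | h1
    · rw [← Bool.not_eq_true, Bool.and_eq_true, decide_eq_true_iff] at h1
      exact absurd ⟨hu, ha⟩ h1
    · exact h1
  · intro h u hut
    rw [Bool.or_eq_true, Bool.not_eq_true', decide_eq_true_iff, ← Bool.not_eq_true,
      Bool.and_eq_true, decide_eq_true_iff]
    by_cases h1 : s < u ∧ d.act u = true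
    · right; exact h u h1.1 (by omega) h1.2
    · left; exact h1

theorem leB_iff (x y : ℕ) : d.leB x y = true ↔ d.ord.le x y := by
  show _ ↔ d.le x y
  unfold leB le lt
  rw [Bool.or_eq_true, Bool.or_eq_true, Bool.and_eq_true, Bool.and_eq_true, decide_eq_true_iff,
    decide_eq_true_iff, decide_eq_true_iff, DB_iff, Bool.not_eq_true', ← Bool.not_eq_true, DB_iff]

theorem fv_c (ha : Computable d.act) (hv : Computable d.v) : Computable d.fv := by
  have h1 : Computable fun n => bif d.act n then d.v n + 1 else n :=
    Computable.cond ha (Computable.succ.comp hv) Computable.id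
  refine h1.of_eq fun n => ?_
  unfold fv
  cases d.act n <;> simp

theorem DB_c (ha : Computable d.act) (hv : Computable d.v) : Computable₂ d.DB := by
  have hf := d.fv_c ha hv
  have h1 : Computable₂ fun (x : ℕ × ℕ) (u : ℕ) =>
      (!(decide (x.1 < u) && d.act u) || decide (d.fv x.1 < d.fv u)) := by
    have a1 : Computable fun z : (ℕ × ℕ) × ℕ => decide (z.1.1 < z.2) :=
      decLt_c (Computable.fst.comp Computable.fst) Computable.snd
    have a2 : Computable fun z : (ℕ × ℕ) × ℕ => d.act z.2 := ha.comp Computable.snd
    have a3 : Computable fun z : (ℕ × ℕ) × ℕ => decide (d.fv z.1.1 < d.fv z.2) :=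
      decLt_c (hf.comp (Computable.fst.comp Computable.fst)) (hf.comp Computable.snd)
    exact or_c (not_c (and_c a1 a2)) a3
  exact computable_allB h1 (Computable.succ.comp Computable.snd)

theorem leB_c (ha : Computable d.act) (hv : Computable d.v) : Computable₂ d.leB := by
  have h := d.DB_c ha hv
  have h1 : Computable fun x : ℕ × ℕ => d.DB x.1 x.2 := h
  have h2 : Computable fun x : ℕ × ℕ => d.DB x.2 x.1 := h.comp Computable.snd Computable.fst
  have a1 : Computable fun x : ℕ × ℕ => decide (x.1 = x.2) := decEq_c Computable.fst Computable.snd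
  have a2 : Computable fun x : ℕ × ℕ => decide (x.1 < x.2) := decLt_c Computable.fst Computable.snd
  have a3 : Computable fun x : ℕ × ℕ => decide (x.2 < x.1) := decLt_c Computable.snd Computable.fst
  exact or_c a1 (or_c (and_c a2 h1) (and_c a3 (not_c h2)))

/-- If the true stages are r.e. then the complement of the set of values is r.e. -/
theorem re_compl (ha : Computable d.act) (hv : Computable d.v) (hT : REPred d.T) :
    REPred fun c : ℕ => ¬ ∃ n, d.act n = true ∧ d.v n = c := by
  have hf := d.fv_c ha hv
  have h1 : REPred fun x : ℕ × ℕ => d.T x.2 ∧ (x.1 + 1 ≤ d.fv x.2 ∧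
      allB (fun u => !(d.act u && decide (d.v u = x.1))) (x.2 + 1) = true) := by
    refine RE.and (RE.comp hT Computable.snd) (RE.and ?_ ?_)
    · exact RE.le (Computable.succ.comp Computable.fst) (hf.comp Computable.snd)
    · refine RE.of_bool (computable_allB (α := ℕ × ℕ)
        (q := fun x u => !(d.act u && decide (d.v u = x.1))) ?_ (Computable.succ.comp Computable.snd))
      refine not_c (α := (ℕ × ℕ) × ℕ) (and_c (ha.comp Computable.snd)
        (decEq_c (hv.comp Computable.snd) (Computable.fst.comp Computable.fst)))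
  refine (RE.exN (p := fun c s => d.T s ∧ (c + 1 ≤ d.fv s ∧
      allB (fun u => !(d.act u && decide (d.v u = c))) (s + 1) = true)) h1).of_eq fun c => ?_
  constructor
  · rintro ⟨s, hs, hc, hall⟩ ⟨n, hn, hv⟩
    rw [allB_iff] at hall
    by_cases h : n < s + 1
    · have := hall n h
      rw [hn] at this
      simp [hv] at this
    · have := hs n (by omega) hn
      rw [d.fv_act hn] at this
      omega
  · intro h
    obtain ⟨s, hs, hc⟩ := d.T_unb c
    refine ⟨s, hs, hc, ?_⟩
    rw [allB_iff]
    intro u _
    rw [Bool.not_eq_true', ← Bool.not_eq_true, Bool.and_eq_true, decide_eq_true_iff]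
    rintro ⟨h1, h2⟩
    exact h ⟨u, h1, h2⟩

end Dat

/-- Membership in the target family of the frozen statement. -/
theorem range_eq : {X : Set ℕ | ∃ S : Finset ℕ, ∃ b : Bool,
    X = {x : ℕ | Xor' (b = true) (Odd (S.filter (fun s => s ≤ x)).card)}} = {X | FC X} := by
  classical
  have hY : ∀ (S : Finset ℕ) (x : ℕ), x ∈ usual.Y S ↔ Odd (S.filter (fun s => s ≤ x)).card := by
    intro S x
    unfold Ord.Y
    simp only [mem_ofPred_eq]
    have : S.filter (fun s => usual.le s x) = S.filter (fun s => s ≤ x) := by
      apply Finset.filter_congr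
      intro s _
      exact Iff.rfl
    rw [this]
  ext X
  constructor
  · rintro ⟨S, b, rfl⟩
    cases b
    · have : {x : ℕ | Xor' (false = true) (Odd (S.filter (fun s => s ≤ x)).card)} = usual.Y S := by
        ext x
        rw [hY, mem_ofPred_eq]
        simp [Xor']
      rw [this]
      exact usual.Y_fc S
    · have : {x : ℕ | Xor' (true = true) (Odd (S.filter (fun s => s ≤ x)).card)} =
          (usual.Y S)ᶜ := by
        ext x
        rw [Set.mem_compl_iff, hY, mem_ofPred_eq]
        simp [Xor']
      rw [this]
      exact (usual.Y_fc S).compl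
  · intro hX
    obtain ⟨S, hS⟩ := usual.Y_surj hX
    refine ⟨S, false, ?_⟩
    rw [← hS]
    ext x
    rw [hY, mem_ofPred_eq]
    simp [Xor']

/-- Isomorphic embeddings onto the algebra of finite/cofinite sets preserve finiteness. -/
theorem finite_iff (ψ : FCA → Set ℕ) (hinj : Function.Injective ψ)
    (hsup : ∀ a b, ψ (a ⊔ b) = ψ a ∪ ψ b) (hcompl : ∀ a, ψ aᶜ = (ψ a)ᶜ)
    (hrange : Set.range ψ = {X | FC X}) (a : FCA) : (ψ a).Finite ↔ (a : Set ℕ).Finite := by
  have key : ∀ a : FCA, (a : Set ℕ).Finite → (ψ a).Finite := by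
    intro a ha
    -- every singleton inside `ψ a` comes from a subset of `a`
    have h1 : ∀ y : ℕ, ∃ b : FCA, ψ b = {y} := by
      intro y
      have : ({y} : Set ℕ) ∈ Set.range ψ := by
        rw [hrange]; left; exact Set.finite_singleton y
      exact this
    choose g hg using h1
    have h2 : ∀ y ∈ ψ a, ((g y : FCA) : Set ℕ) ∈ {X : Set ℕ | X ⊆ (a : Set ℕ)} := by
      intro y hy
      have h3 : g y ⊔ a = a := by
        apply hinj
        rw [hsup, hg]
        ext x
        constructor
        · rintro (rfl | h)
          · exact hy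
          · exact h
        · intro h; exact Or.inr h
      have h4 : g y ≤ a := sup_eq_right.1 h3
      exact h4
    have h5 : {X : Set ℕ | X ⊆ (a : Set ℕ)}.Finite := ha.finite_subsets
    refine Set.Finite.of_finite_image (f := fun y => ((g y : FCA) : Set ℕ)) (h5.subset ?_) ?_
    · rintro _ ⟨y, hy, rfl⟩
      exact h2 y hy
    · intro y _ y' _ h
      have h6 : g y = g y' := Subtype.ext h
      have h7 := hg y
      rw [h6, hg y'] at h7
      exact (Set.singleton_injective h7).symm
  constructor
  · intro h
    rcases a.2 with h1 | h1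
    · exact h1
    · exfalso
      have h2 : (ψ aᶜ).Finite := key aᶜ h1
      rw [hcompl] at h2
      have h3 := h.union h2
      rw [Set.union_compl_self] at h3
      exact Set.infinite_univ h3
  · exact key a

/-- The parity at infinity of a coded set. -/
theorem infinite_code (l' : ℕ ≃ ℕ) (L : List ℕ) (b : Bool) :
    ¬ ({x : ℕ | Xor' (b = true) (Odd ((L.filter (fun s => decide (l' s ≤ x))).length))}).Finite ↔
      Xor' (b = true) (Odd L.length) := by
  have hN : ∃ N, ∀ s ∈ L, l' s ≤ N := by
    induction L with
    | nil => exact ⟨0, by simp⟩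
    | cons a L ih =>
      obtain ⟨N, hN⟩ := ih
      refine ⟨max (l' a) N, ?_⟩
      intro s hs
      rcases List.mem_cons.1 hs with rfl | hs
      · exact le_max_left _ _
      · exact (hN s hs).trans (le_max_right _ _)
  obtain ⟨N, hN⟩ := hN
  have hf : ∀ x, N ≤ x → L.filter (fun s => decide (l' s ≤ x)) = L := by
    intro x hx
    rw [List.filter_eq_self]
    intro s hs
    rw [decide_eq_true_iff]
    exact (hN s hs).trans hx
  constructor
  · intro h
    by_contra hP
    apply h
    refine (Set.finite_lt_nat N).subset ?_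
    intro x hx
    rw [mem_ofPred_eq] at hx ⊢
    by_contra hlt
    rw [hf x (by omega)] at hx
    exact hP hx
  · intro hP hfin
    have h1 : {x : ℕ | N ≤ x}.Finite := by
      refine hfin.subset ?_
      intro x hx
      rw [mem_ofPred_eq] at hx ⊢
      rw [hf x hx]
      exact hP
    have h2 := h1.union (Set.finite_lt_nat N)
    apply Set.infinite_univ (α := ℕ)
    refine h2.subset ?_
    intro x _
    rcases Nat.lt_or_ge x N with h | h
    · right; exact h
    · left; exact h

theorem parity_c {c : ℕ → List ℕ × Bool} (hc : Computable c) :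
    REPred fun n : ℕ => Xor' ((c n).2 = true) (Odd (c n).1.length) := by
  have h1 : Computable fun n => decide ((c n).1.length % 2 = 1) :=
    decEq_c (Primrec.nat_mod.to_comp.comp (Computable.list_length.comp (Computable.fst.comp hc))
      (Computable.const 2)) (Computable.const 1)
  have h2 : Computable fun n => xor (c n).2 (decide ((c n).1.length % 2 = 1)) := by
    have a5 : Computable₂ xor := (Primrec.dom_bool₂ xor).to_comp
    exact a5.comp (Computable.snd.comp hc) h1
  refine (RE.of_bool h2).of_eq fun n => ?_
  rw [Nat.odd_iff]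
  cases (c n).2 <;> simp [Xor']

/-- An r.e. predicate on `ℕ` which is not co-r.e. -/
theorem exists_q : ∃ q : ℕ → ℕ → Bool, Computable₂ q ∧ (∀ c, q c 0 = false) ∧
    ¬ REPred (fun c : ℕ => ¬ ∃ s, q c s = true) := by
  have hre : REPred fun c : Nat.Partrec.Code => (c.eval 0).Dom :=
    ComputablePred.halting_problem_re 0
  have hre' : REPred fun n : ℕ => ((Denumerable.ofNat Nat.Partrec.Code n).eval 0).Dom :=
    RE.comp hre (Computable.ofNat _)
  obtain ⟨q0, hq0, h⟩ := re_iff.1 hre'
  refine ⟨fun c s => decide (0 < s) && q0 c (s - 1), ?_, ?_, ?_⟩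
  · refine and_c (α := ℕ × ℕ) (decLt_c (Computable.const 0) Computable.snd) ?_
    exact hq0.comp Computable.fst (Primrec.pred.to_comp.comp Computable.snd)
  · intro c; simp
  · intro hco
    have hiff : ∀ c, (∃ s, (decide (0 < s) && q0 c (s - 1)) = true) ↔
        ((Denumerable.ofNat Nat.Partrec.Code c).eval 0).Dom := by
      intro c
      rw [h c]
      constructor
      · rintro ⟨s, hs⟩
        rw [Bool.and_eq_true] at hs
        exact ⟨_, hs.2⟩
      · rintro ⟨s, hs⟩
        exact ⟨s + 1, by simpa using hs⟩
    have hco' : REPred fun c : Nat.Partrec.Code => ¬ (c.eval 0).Dom := by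
      have h2 := RE.comp hco (f := fun c : Nat.Partrec.Code => Encodable.encode c)
        Computable.encode
      refine h2.of_eq fun c => ?_
      rw [hiff, Denumerable.ofNat_encode]
    exact ComputablePred.halting_problem 0 (cp_of_re hre hco')

theorem bits_two_pow (s : ℕ) : Finset.equivBitIndices (2 ^ s) = {s} := by
  rw [Finset.equivBitIndices_apply, Nat.bitIndices_two_pow]
  rfl

end Pool.Agent.U44.IA
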