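import Pool.Agent.U44.IA.Order
import Pool.Agent.Helper446.RE

/-!
The computable presentation of the algebra of finite/cofinite sets given by a computable copy of
`ω + ω*`.
-/

set_option autoImplicit false

namespace Pool.Agent.U44.IA

open Set Pool.Agent.Helper446 Pool.Agent.Helper446.RE

/-- The algebra of finite and cofinite sets of naturals. -/
def FCA : BooleanSubalgebra (Set ℕ) where
  carrier := {X | FC X}
  supClosed' := fun _ ha _ hb => FC.union ha hb
  infClosed' := fun _ ha _ hb => FC.inter ha hb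
  compl_mem' := fun ha => FC.compl ha
  bot_mem' := Or.inl Set.finite_empty

theorem mem_FCA (X : Set ℕ) : X ∈ FCA ↔ FC X := Iff.rfl

/-- The presentation attached to an order. -/
noncomputable def Ord.pres (o : Ord) : ℕ ≃ FCA :=
  Equiv.ofBijective (fun n => ⟨o.Y (Finset.equivBitIndices n), o.Y_fc _⟩) (by
    constructor
    · intro m n h
      have h1 : o.Y (Finset.equivBitIndices m) = o.Y (Finset.equivBitIndices n) :=
        congrArg Subtype.val h
      exact Finset.equivBitIndices.injective (o.Y_inj h1)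
    · rintro ⟨X, hX⟩
      obtain ⟨S, hS⟩ := o.Y_surj hX
      refine ⟨Finset.equivBitIndices.symm S, ?_⟩
      apply Subtype.ext
      simp [hS])

theorem Ord.pres_val (o : Ord) (n : ℕ) :
    ((o.pres n : FCA) : Set ℕ) = o.Y (Finset.equivBitIndices n) := rfl

theorem mem_bits {n i : ℕ} : i ∈ Finset.equivBitIndices n ↔ n / 2 ^ i % 2 = 1 := by
  rw [Finset.equivBitIndices_apply, List.mem_toFinset, Nat.mem_bitIndices,
    Nat.testBit_eq_decide_div_mod_eq, decide_eq_true_iff]

theorem bits_lt {n i : ℕ} (h : i ∈ Finset.equivBitIndices n) : i < n := by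
  rw [Finset.equivBitIndices_apply, List.mem_toFinset] at h
  exact lt_of_lt_of_le Nat.lt_two_pow_self (Nat.two_pow_le_of_mem_bitIndices h)

namespace Ord

variable (o : Ord)

theorem local_point (x N : ℕ) (hN : 0 < N) : ∃ s0, s0 < N ∧ ∀ s, s < N → (o.le s x ↔ o.le s s0) := by
  obtain ⟨N, rfl⟩ : ∃ M, N = M + 1 := ⟨N - 1, by omega⟩
  clear hN
  induction N with
  | zero =>
    refine ⟨0, by omega, fun s hs => ?_⟩
    have : s = 0 := by omega
    subst this
    exact ⟨fun _ => o.refl _, fun _ => o.zero_le _⟩
  | succ N ih =>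
    obtain ⟨s0, hs0, h⟩ := ih
    have hs0x : o.le s0 x := (h s0 hs0).2 (o.refl _)
    by_cases hx : o.le (N + 1) x
    · rcases o.total s0 (N + 1) with h1 | h1
      · refine ⟨N + 1, by omega, fun s hs => ?_⟩
        by_cases e : s = N + 1
        · subst e; exact ⟨fun _ => o.refl _, fun _ => hx⟩
        · exact ⟨fun h2 => o.trans _ _ _ ((h s (by omega)).1 h2) h1, fun h2 => o.trans _ _ _ h2 hx⟩
      · refine ⟨s0, by omega, fun s hs => ?_⟩
        by_cases e : s = N + 1
        · subst e; exact ⟨fun _ => h1, fun _ => hx⟩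
        · exact h s (by omega)
    · refine ⟨s0, by omega, fun s hs => ?_⟩
      by_cases e : s = N + 1
      · subst e; exact ⟨fun h2 => absurd h2 hx, fun h2 => o.trans _ _ _ h2 hs0x⟩
      · exact h s (by omega)

theorem Y_local {S : Finset ℕ} {N x s0 : ℕ} (hS : ∀ s ∈ S, s < N)
    (h : ∀ s, s < N → (o.le s x ↔ o.le s s0)) : x ∈ o.Y S ↔ s0 ∈ o.Y S := by
  classical
  have h1 : S.filter (fun s => o.le s x) = S.filter (fun s => o.le s s0) := by
    apply Finset.filter_congr
    intro s hs
    exact h s (hS s hs)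
  have h2 : ∀ y, y ∈ o.Y S ↔ Odd (S.filter (fun s => o.le s y)).card := by
    intro y; unfold Y; simp only [mem_ofPred_eq]
  rw [h2, h2, h1]

theorem sup_iff (m n k : ℕ) : o.pres m ⊔ o.pres n = o.pres k ↔ ∀ s, s < m + n + k + 1 →
    ((s ∈ o.Y (Finset.equivBitIndices m) ∨ s ∈ o.Y (Finset.equivBitIndices n)) ↔
      s ∈ o.Y (Finset.equivBitIndices k)) := by
  constructor
  · intro h s _
    have h1 : o.Y (Finset.equivBitIndices m) ∪ o.Y (Finset.equivBitIndices n) =
        o.Y (Finset.equivBitIndices k) := congrArg Subtype.val h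
    rw [← h1]; rfl
  · intro h
    apply Subtype.ext
    show o.Y (Finset.equivBitIndices m) ∪ o.Y (Finset.equivBitIndices n) =
        o.Y (Finset.equivBitIndices k)
    ext x
    obtain ⟨s0, hs0, hl⟩ := o.local_point x (m + n + k + 1) (by omega)
    rw [Set.mem_union,
      o.Y_local (N := m + n + k + 1) (fun s hs => by have := bits_lt hs; omega) hl,
      o.Y_local (N := m + n + k + 1) (fun s hs => by have := bits_lt hs; omega) hl,
      o.Y_local (N := m + n + k + 1) (fun s hs => by have := bits_lt hs; omega) hl]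
    exact h s0 hs0

theorem inf_iff (m n k : ℕ) : o.pres m ⊓ o.pres n = o.pres k ↔ ∀ s, s < m + n + k + 1 →
    ((s ∈ o.Y (Finset.equivBitIndices m) ∧ s ∈ o.Y (Finset.equivBitIndices n)) ↔
      s ∈ o.Y (Finset.equivBitIndices k)) := by
  constructor
  · intro h s _
    have h1 : o.Y (Finset.equivBitIndices m) ∩ o.Y (Finset.equivBitIndices n) =
        o.Y (Finset.equivBitIndices k) := congrArg Subtype.val h
    rw [← h1]; rfl
  · intro h
    apply Subtype.ext
    show o.Y (Finset.equivBitIndices m) ∩ o.Y (Finset.equivBitIndices n) =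
        o.Y (Finset.equivBitIndices k)
    ext x
    obtain ⟨s0, hs0, hl⟩ := o.local_point x (m + n + k + 1) (by omega)
    rw [Set.mem_inter_iff,
      o.Y_local (N := m + n + k + 1) (fun s hs => by have := bits_lt hs; omega) hl,
      o.Y_local (N := m + n + k + 1) (fun s hs => by have := bits_lt hs; omega) hl,
      o.Y_local (N := m + n + k + 1) (fun s hs => by have := bits_lt hs; omega) hl]
    exact h s0 hs0

theorem compl_iff (m k : ℕ) : (o.pres m)ᶜ = o.pres k ↔ ∀ s, s < m + k + 1 →
    (¬ (s ∈ o.Y (Finset.equivBitIndices m)) ↔ s ∈ o.Y (Finset.equivBitIndices k)) := by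
  constructor
  · intro h s _
    have h1 : (o.Y (Finset.equivBitIndices m))ᶜ =
        o.Y (Finset.equivBitIndices k) := congrArg Subtype.val h
    rw [← h1]; rfl
  · intro h
    apply Subtype.ext
    show (o.Y (Finset.equivBitIndices m))ᶜ = o.Y (Finset.equivBitIndices k)
    ext x
    obtain ⟨s0, hs0, hl⟩ := o.local_point x (m + k + 1) (by omega)
    rw [Set.mem_compl_iff,
      o.Y_local (N := m + k + 1) (fun s hs => by have := bits_lt hs; omega) hl,
      o.Y_local (N := m + k + 1) (fun s hs => by have := bits_lt hs; omega) hl]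
    exact h s0 hs0

/-- Boolean membership. -/
def chi (leB : ℕ → ℕ → Bool) (n s : ℕ) : Bool :=
  Nat.rec false (fun i b => xor b (decide (n / 2 ^ i % 2 = 1) && leB i s)) n

theorem chi_aux (leB : ℕ → ℕ → Bool) (n s N : ℕ) :
    (Nat.rec false (fun i b => xor b (decide (n / 2 ^ i % 2 = 1) && leB i s)) N : Bool) = true ↔
    Odd ((Finset.range N).filter (fun i => n / 2 ^ i % 2 = 1 ∧ leB i s = true)).card := by
  induction N with
  | zero => simp
  | succ N ih =>
    rw [Finset.range_add_one, Finset.filter_insert]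
    by_cases h : n / 2 ^ N % 2 = 1 ∧ leB N s = true
    · rw [if_pos h, Finset.card_insert_of_notMem (by simp)]
      show xor _ _ = true ↔ _
      rw [Nat.odd_add_one, ← ih]
      rw [h.2, decide_eq_true h.1]
      simp
    · rw [if_neg h, ← ih]
      show xor _ _ = true ↔ _
      have : (decide (n / 2 ^ N % 2 = 1) && leB N s) = false := by
        rw [← Bool.not_eq_true, Bool.and_eq_true, decide_eq_true_iff]
        exact h
      rw [this, Bool.xor_false]

theorem chi_iff (leB : ℕ → ℕ → Bool) (hle : ∀ i s, leB i s = true ↔ o.le i s) (n s : ℕ) :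
    chi leB n s = true ↔ s ∈ o.Y (Finset.equivBitIndices n) := by
  classical
  unfold chi
  rw [chi_aux]
  have h1 : (Finset.range n).filter (fun i => n / 2 ^ i % 2 = 1 ∧ leB i s = true) =
      (Finset.equivBitIndices n).filter (fun i => o.le i s) := by
    ext i
    rw [Finset.mem_filter, Finset.mem_filter, Finset.mem_range, mem_bits, hle]
    constructor
    · rintro ⟨-, h⟩; exact h
    · intro h; exact ⟨bits_lt (mem_bits.2 h.1), h⟩
  rw [h1]
  unfold Y
  simp only [mem_ofPred_eq]

end Ord

theorem pow2_c {α : Type} [Primcodable α] {f : α → ℕ} (hf : Computable f) :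
    Computable fun x => 2 ^ f x := by
  have h0 : Primrec fun n : ℕ => 2 ^ n := by
    have h : Primrec fun n : ℕ => (fun y : ℕ => 2 * y)^[n] 1 :=
      Primrec.nat_iterate Primrec.id (Primrec.const 1)
        (Primrec.nat_mul.comp (Primrec.const 2) Primrec.snd).to₂
    refine h.of_eq ?_
    intro n
    induction n with
    | zero => rfl
    | succ n ih => rw [Function.iterate_succ_apply', ih, pow_succ']
  exact h0.to_comp.comp hf

theorem bit_c : Computable₂ fun n i : ℕ => decide (n / 2 ^ i % 2 = 1) := by
  have h1 : Computable fun x : ℕ × ℕ => x.1 / 2 ^ x.2 % 2 :=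
    Primrec.nat_mod.to_comp.comp (Primrec.nat_div.to_comp.comp Computable.fst
      (pow2_c Computable.snd)) (Computable.const 2)
  have h2 : Computable fun x : ℕ × ℕ => decide (x.1 / 2 ^ x.2 % 2 = 1) :=
    (PrimrecPred.decide (Primrec.eq (α := ℕ))).to_comp.comp (h1.pair (Computable.const 1))
  exact h2

theorem chi_c {leB : ℕ → ℕ → Bool} (h : Computable₂ leB) : Computable₂ (Ord.chi leB) := by
  have h1 : Computable fun x : ℕ × ℕ => (Nat.rec false
      (fun i b => xor b (decide (x.1 / 2 ^ i % 2 = 1) && leB i x.2)) x.1 : Bool) := by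
    refine Computable.nat_rec (f := fun x : ℕ × ℕ => x.1) (g := fun _ : ℕ × ℕ => false)
      (h := fun (x : ℕ × ℕ) (y : ℕ × Bool) =>
        xor y.2 (decide (x.1 / 2 ^ y.1 % 2 = 1) && leB y.1 x.2))
      Computable.fst (Computable.const false) ?_
    have a1 : Computable fun z : (ℕ × ℕ) × (ℕ × Bool) => decide (z.1.1 / 2 ^ z.2.1 % 2 = 1) :=
      bit_c.comp (Computable.fst.comp Computable.fst) (Computable.fst.comp Computable.snd)
    have a2 : Computable fun z : (ℕ × ℕ) × (ℕ × Bool) => leB z.2.1 z.1.2 :=
      h.comp (Computable.fst.comp Computable.snd) (Computable.snd.comp Computable.fst)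
    have a3 : Computable fun z : (ℕ × ℕ) × (ℕ × Bool) => z.2.2 :=
      Computable.snd.comp Computable.snd
    have a4 : Computable fun z : (ℕ × ℕ) × (ℕ × Bool) =>
        (decide (z.1.1 / 2 ^ z.2.1 % 2 = 1) && leB z.2.1 z.1.2) := Primrec.and.to_comp.comp a1 a2
    have a5 : Computable₂ xor := (Primrec.dom_bool₂ xor).to_comp
    exact a5.comp a3 a4
  exact h1

namespace Ord

variable (o : Ord)

theorem re_bd (R : (ℕ × ℕ) × ℕ → ℕ → Bool) (hR : Computable₂ R) (f : (ℕ × ℕ) × ℕ → ℕ)
    (hf : Computable f) : REPred fun x => ∀ s, s < f x → R x s = true := by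
  refine (RE.of_bool (computable_allB hR hf)).of_eq fun x => ?_
  rw [allB_iff]

theorem beq_c {α : Type} [Primcodable α] {f g : α → Bool} (hf : Computable f) (hg : Computable g) :
    Computable fun x => (f x == g x) := by
  have h : Primrec fun p : Bool × Bool => (p.1 == p.2) := Primrec.dom_finite _
  exact h.to_comp.comp (hf.pair hg)

theorem sup_c {leB : ℕ → ℕ → Bool} (h : Computable₂ leB)
    (hle : ∀ i s, leB i s = true ↔ o.le i s) :
    Computable₂ (fun m n : ℕ => o.pres.symm (o.pres m ⊔ o.pres n)) := by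
  have hc := chi_c h
  have h1 : REPred fun x : (ℕ × ℕ) × ℕ =>
      (fun y : ℕ × ℕ => o.pres.symm (o.pres y.1 ⊔ o.pres y.2)) x.1 = x.2 := by
    refine (re_bd (fun x s => ((chi leB x.1.1 s || chi leB x.1.2 s) == chi leB x.2 s)) ?_
      (fun x => x.1.1 + x.1.2 + x.2 + 1) ?_).of_eq fun x => ?_
    · refine beq_c (α := ((ℕ × ℕ) × ℕ) × ℕ) ?_ ?_
      · refine Primrec.or.to_comp.comp ?_ ?_
        · exact hc.comp (Computable.fst.comp (Computable.fst.comp Computable.fst)) Computable.snd
        · exact hc.comp (Computable.snd.comp (Computable.fst.comp Computable.fst)) Computable.snd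
      · exact hc.comp (Computable.snd.comp Computable.fst) Computable.snd
    · refine Computable.succ.comp (Primrec.nat_add.to_comp.comp
        (Primrec.nat_add.to_comp.comp (Computable.fst.comp Computable.fst)
          (Computable.snd.comp Computable.fst)) Computable.snd)
    · rw [Equiv.symm_apply_eq, o.sup_iff]
      refine forall_congr' fun s => ?_
      refine imp_congr_right fun _ => ?_
      rw [beq_iff_eq, Bool.eq_iff_iff, Bool.or_eq_true, o.chi_iff leB hle, o.chi_iff leB hle,
        o.chi_iff leB hle]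
  exact computable_of_graph h1

theorem inf_c {leB : ℕ → ℕ → Bool} (h : Computable₂ leB)
    (hle : ∀ i s, leB i s = true ↔ o.le i s) :
    Computable₂ (fun m n : ℕ => o.pres.symm (o.pres m ⊓ o.pres n)) := by
  have hc := chi_c h
  have h1 : REPred fun x : (ℕ × ℕ) × ℕ =>
      (fun y : ℕ × ℕ => o.pres.symm (o.pres y.1 ⊓ o.pres y.2)) x.1 = x.2 := by
    refine (re_bd (fun x s => ((chi leB x.1.1 s && chi leB x.1.2 s) == chi leB x.2 s)) ?_
      (fun x => x.1.1 + x.1.2 + x.2 + 1) ?_).of_eq fun x => ?_
    · refine beq_c (α := ((ℕ × ℕ) × ℕ) × ℕ) ?_ ?_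
      · refine Primrec.and.to_comp.comp ?_ ?_
        · exact hc.comp (Computable.fst.comp (Computable.fst.comp Computable.fst)) Computable.snd
        · exact hc.comp (Computable.snd.comp (Computable.fst.comp Computable.fst)) Computable.snd
      · exact hc.comp (Computable.snd.comp Computable.fst) Computable.snd
    · refine Computable.succ.comp (Primrec.nat_add.to_comp.comp
        (Primrec.nat_add.to_comp.comp (Computable.fst.comp Computable.fst)
          (Computable.snd.comp Computable.fst)) Computable.snd)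
    · rw [Equiv.symm_apply_eq, o.inf_iff]
      refine forall_congr' fun s => ?_
      refine imp_congr_right fun _ => ?_
      rw [beq_iff_eq, Bool.eq_iff_iff, Bool.and_eq_true, o.chi_iff leB hle, o.chi_iff leB hle,
        o.chi_iff leB hle]
  exact computable_of_graph h1

theorem compl_c {leB : ℕ → ℕ → Bool} (h : Computable₂ leB)
    (hle : ∀ i s, leB i s = true ↔ o.le i s) :
    Computable (fun m : ℕ => o.pres.symm (o.pres m)ᶜ) := by
  have hc := chi_c h
  have h1 : REPred fun x : ℕ × ℕ => (fun m : ℕ => o.pres.symm (o.pres m)ᶜ) x.1 = x.2 := by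
    have h2 : Computable₂ fun (x : ℕ × ℕ) (s : ℕ) => ((!(chi leB x.1 s)) == chi leB x.2 s) := by
      refine beq_c (α := (ℕ × ℕ) × ℕ) ?_ ?_
      · refine Primrec.not.to_comp.comp ?_
        exact hc.comp (Computable.fst.comp Computable.fst) Computable.snd
      · exact hc.comp (Computable.snd.comp Computable.fst) Computable.snd
    have h3 : Computable fun x : ℕ × ℕ => x.1 + x.2 + 1 :=
      Computable.succ.comp (Primrec.nat_add.to_comp.comp Computable.fst Computable.snd)
    refine (RE.of_bool (computable_allB h2 h3)).of_eq fun x => ?_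
    rw [allB_iff, Equiv.symm_apply_eq, o.compl_iff]
    refine forall_congr' fun s => ?_
    refine imp_congr_right fun _ => ?_
    rw [beq_iff_eq, Bool.eq_iff_iff, Bool.not_eq_true', ← Bool.not_eq_true, o.chi_iff leB hle,
      o.chi_iff leB hle]
  exact computable_of_graph h1

end Ord

end Pool.Agent.U44.IA
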