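import Mathlib

/-!
Parities of cuts of a total order on `ℕ`, the algebra of finite/cofinite sets, and a computable
copy of `ω + ω*` built from true stages.
-/

set_option autoImplicit false

namespace Pool.Agent.U44.IA

open Set

/-- Finite or cofinite. -/
def FC (X : Set ℕ) : Prop := X.Finite ∨ Xᶜ.Finite

theorem FC.compl {X : Set ℕ} (h : FC X) : FC Xᶜ := by
  rcases h with h | h
  · right; rwa [compl_compl]
  · left; exact h

theorem FC.union {X Y : Set ℕ} (h : FC X) (h' : FC Y) : FC (X ∪ Y) := by
  rcases h with h | h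
  · rcases h' with h' | h'
    · left; exact h.union h'
    · right; exact h'.subset (by intro x hx hy; exact hx (Or.inr hy))
  · right; exact h.subset (by intro x hx hy; exact hx (Or.inl hy))

theorem FC.inter {X Y : Set ℕ} (h : FC X) (h' : FC Y) : FC (X ∩ Y) := by
  have := (h.compl.union h'.compl).compl
  rwa [compl_union, compl_compl, compl_compl] at this

theorem FC.symmDiff {X Y : Set ℕ} (h : FC X) (h' : FC Y) : FC (symmDiff X Y) := by
  rw [Set.symmDiff_def, Set.sdiff_eq, Set.sdiff_eq]
  exact (h.inter h'.compl).union (h'.inter h.compl)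

/-- A decidable total order on `ℕ` with a least element all of whose cuts are finite or cofinite
and of successor type. -/
structure Ord where
  le : ℕ → ℕ → Prop
  refl : ∀ x, le x x
  trans : ∀ x y z, le x y → le y z → le x z
  antisymm : ∀ x y, le x y → le y x → x = y
  total : ∀ x y, le x y ∨ le y x
  zero_le : ∀ x, le 0 x
  fc : ∀ s, FC {x | le s x}
  succ : ∀ s, (∀ x, le s x → x = s) ∨ ∃ t, ∀ x, le t x ↔ (le s x ∧ x ≠ s)

namespace Ord

variable (o : Ord)

open Classical in
/-- The finite set `S` codes the set of points above an odd number of elements of `S`. -/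
noncomputable def Y (S : Finset ℕ) : Set ℕ := {x | Odd (S.filter (fun s => o.le s x)).card}

theorem exists_least (S : Finset ℕ) (h : S.Nonempty) : ∃ x ∈ S, ∀ y ∈ S, o.le x y := by
  induction h using Finset.Nonempty.cons_induction with
  | singleton a => exact ⟨a, by simp, by simp [o.refl]⟩
  | cons a s ha hs ih =>
    obtain ⟨x, hx, hm⟩ := ih
    rcases o.total a x with h | h
    · refine ⟨a, by simp, ?_⟩
      intro y hy
      rcases Finset.mem_cons.1 hy with rfl | hy
      · exact o.refl _
      · exact o.trans _ _ _ h (hm y hy)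
    · refine ⟨x, by simp [hx], ?_⟩
      intro y hy
      rcases Finset.mem_cons.1 hy with rfl | hy
      · exact h
      · exact hm y hy

theorem odd_card_symmDiff (A B : Finset ℕ) :
    Odd (symmDiff A B).card ↔ ¬ (Odd A.card ↔ Odd B.card) := by
  have h1 : (symmDiff A B).card + 2 * (A ∩ B).card = A.card + B.card := by
    have e1 : symmDiff A B = (A \ B) ∪ (B \ A) := rfl
    have e2 : Disjoint (A \ B) (B \ A) := disjoint_sdiff_sdiff
    rw [e1, Finset.card_union_of_disjoint e2]
    have e3 := Finset.card_sdiff_add_card_inter A B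
    have e4 := Finset.card_sdiff_add_card_inter B A
    rw [Finset.inter_comm] at e4
    omega
  simp only [Nat.odd_iff]
  omega

theorem Y_symmDiff (S S' : Finset ℕ) : o.Y (symmDiff S S') = symmDiff (o.Y S) (o.Y S') := by
  classical
  ext x
  have h1 : (symmDiff S S').filter (fun s => o.le s x) =
      symmDiff (S.filter (fun s => o.le s x)) (S'.filter (fun s => o.le s x)) := by
    ext s
    simp only [Finset.mem_filter, Finset.mem_symmDiff]
    tauto
  have h2 : (x ∈ o.Y (symmDiff S S')) ↔ Odd ((symmDiff S S').filter (fun s => o.le s x)).card := by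
    unfold Y; simp only [mem_ofPred_eq]
  rw [h2, h1, odd_card_symmDiff, Set.mem_symmDiff]
  have h3 : ∀ T : Finset ℕ, Odd (T.filter (fun s => o.le s x)).card ↔ x ∈ o.Y T := by
    intro T; unfold Y; simp only [mem_ofPred_eq]
  rw [h3, h3]
  tauto

theorem Y_empty : o.Y ∅ = ∅ := by
  ext x; simp [Y]

theorem Y_singleton (s : ℕ) : o.Y {s} = {x | o.le s x} := by
  classical
  ext x
  simp only [Y, mem_ofPred_eq, Finset.filter_singleton]
  split_ifs with h
  · simp [h]
  · simp [h]

theorem Y_zero : o.Y {0} = Set.univ := by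
  rw [Y_singleton]; ext x; simp [o.zero_le]

theorem Y_insert (a : ℕ) (S : Finset ℕ) (h : a ∉ S) :
    o.Y (insert a S) = symmDiff {x | o.le a x} (o.Y S) := by
  rw [← Y_singleton, ← Y_symmDiff]
  congr 1
  ext s
  simp only [Finset.mem_insert, Finset.mem_symmDiff, Finset.mem_singleton]
  constructor
  · rintro (rfl | hs)
    · left; exact ⟨rfl, h⟩
    · right; exact ⟨hs, fun e => h (e ▸ hs)⟩
  · rintro (⟨rfl, -⟩ | ⟨hs, -⟩)
    · left; rfl
    · right; exact hs

theorem Y_fc (S : Finset ℕ) : FC (o.Y S) := by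
  induction S using Finset.induction_on with
  | empty => rw [Y_empty]; left; exact Set.finite_empty
  | insert a S h ih => rw [Y_insert _ _ _ h]; exact (o.fc a).symmDiff ih

theorem Y_inj {S S' : Finset ℕ} (h : o.Y S = o.Y S') : S = S' := by
  classical
  have h0 : o.Y (symmDiff S S') = ∅ := by rw [Y_symmDiff, h, symmDiff_self]; rfl
  by_contra hne
  have h1 : (symmDiff S S').Nonempty := by
    rw [Finset.nonempty_iff_ne_empty]
    intro h2
    apply hne
    rw [← Finset.bot_eq_empty, symmDiff_eq_bot] at h2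
    exact h2
  obtain ⟨x, hx, hm⟩ := o.exists_least _ h1
  have h3 : (symmDiff S S').filter (fun s => o.le s x) = {x} := by
    ext s
    simp only [Finset.mem_filter, Finset.mem_singleton]
    constructor
    · rintro ⟨hs, hsx⟩
      exact o.antisymm _ _ hsx (hm s hs)
    · rintro rfl
      exact ⟨hx, o.refl _⟩
  have h4 : x ∈ o.Y (symmDiff S S') := by
    unfold Y
    simp only [mem_ofPred_eq]
    rw [h3]; simp
  rw [h0] at h4
  exact h4

theorem Y_surj {X : Set ℕ} (hX : FC X) : ∃ S, o.Y S = X := by
  classical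
  -- singletons
  have hs : ∀ x0 : ℕ, ∃ S, o.Y S = {x0} := by
    intro x0
    rcases o.succ x0 with h | ⟨t, ht⟩
    · refine ⟨{x0}, ?_⟩
      rw [Y_singleton]
      ext x
      simp only [mem_ofPred_eq, mem_singleton_iff]
      exact ⟨h x, fun e => e ▸ o.refl _⟩
    · refine ⟨symmDiff {x0} {t}, ?_⟩
      rw [Y_symmDiff, Y_singleton, Y_singleton]
      ext x
      simp only [Set.mem_symmDiff, mem_ofPred_eq, mem_singleton_iff, ht]
      constructor
      · rintro (⟨h1, h2⟩ | ⟨h1, h2⟩)
        · by_contra hne; exact h2 ⟨h1, hne⟩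
        · exact absurd h1.1 h2
      · rintro rfl
        left; exact ⟨o.refl _, fun h => h.2 rfl⟩
  have hf : ∀ F : Finset ℕ, ∃ S, o.Y S = (F : Set ℕ) := by
    intro F
    induction F using Finset.induction_on with
    | empty => exact ⟨∅, by rw [Y_empty]; simp⟩
    | insert a F h ih =>
      obtain ⟨S, hS⟩ := ih
      obtain ⟨S', hS'⟩ := hs a
      refine ⟨symmDiff S S', ?_⟩
      rw [Y_symmDiff, hS, hS']
      ext x
      simp only [Set.mem_symmDiff, Finset.mem_coe, mem_singleton_iff, Finset.coe_insert,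
        Set.mem_insert_iff]
      constructor
      · rintro (⟨h1, h2⟩ | ⟨h1, h2⟩)
        · right; exact h1
        · left; exact h1
      · rintro (rfl | h1)
        · right; exact ⟨rfl, h⟩
        · left; exact ⟨h1, fun e => h (e ▸ h1)⟩
  rcases hX with hX | hX
  · obtain ⟨S, hS⟩ := hf hX.toFinset
    exact ⟨S, by rw [hS]; simp⟩
  · obtain ⟨S, hS⟩ := hf hX.toFinset
    refine ⟨symmDiff {0} S, ?_⟩
    rw [Y_symmDiff, hS, Y_zero]
    ext x
    simp [Set.mem_symmDiff]

end Ord

/-- The usual order. -/
def usual : Ord where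
  le := fun x y => x ≤ y
  refl := fun x => le_refl x
  trans := fun _ _ _ h h' => le_trans h h'
  antisymm := fun _ _ h h' => le_antisymm h h'
  total := fun x y => le_total x y
  zero_le := fun x => Nat.zero_le x
  fc := fun s => by
    right
    refine (Set.finite_lt_nat s).subset ?_
    intro x hx
    simp only [mem_compl_iff, mem_ofPred_eq, not_le] at hx
    exact hx
  succ := fun s => by
    right
    refine ⟨s + 1, fun x => ?_⟩
    omega

/-- Data for a computable copy of `ω + ω*`. -/
structure Dat where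
  act : ℕ → Bool
  v : ℕ → ℕ
  act0 : act 0 = false
  vle : ∀ n, v n ≤ n
  inj : ∀ m n, act m = true → act n = true → v m = v n → m = n

namespace Dat

variable (d : Dat)

def fv (n : ℕ) : ℕ := if d.act n = true then d.v n + 1 else n

theorem fv_act {n : ℕ} (h : d.act n = true) : d.fv n = d.v n + 1 := by simp [fv, h]

theorem fv_nact {n : ℕ} (h : ¬ d.act n = true) : d.fv n = n := by
  unfold fv; rw [if_neg h]

theorem fv_le (n : ℕ) : d.fv n ≤ n + 1 := by
  unfold fv
  split_ifs
  · have := d.vle n; omega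
  · omega

def D (s t : ℕ) : Prop := ∀ u, s < u → u ≤ t → d.act u = true → d.fv s < d.fv u

def lt (x y : ℕ) : Prop := (x < y ∧ d.D x y) ∨ (y < x ∧ ¬ d.D y x)

def le (x y : ℕ) : Prop := x = y ∨ d.lt x y

def T (s : ℕ) : Prop := ∀ u, s < u → d.act u = true → d.fv s < d.fv u

theorem D_mono {s t u : ℕ} (h : d.D s u) (htu : t ≤ u) : d.D s t :=
  fun w hw hwt hact => h w hw (hwt.trans htu) hact

theorem D_trans {s t u : ℕ} (hst : s < t) (h1 : d.D s t) (h2 : d.D t u) :
    d.D s u := by
  intro w hw hwu hact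
  by_cases hwt : w ≤ t
  · exact h1 w hw hwt hact
  · have h3 := h2 w (by omega) hwu hact
    by_cases ha : d.act t = true
    · exact (h1 t hst le_rfl ha).trans h3
    · rw [d.fv_nact ha] at h3
      have := d.fv_le s
      omega

theorem lt_irrefl (x : ℕ) : ¬ d.lt x x := by
  rintro (⟨h, -⟩ | ⟨h, -⟩) <;> omega

theorem lt_trans {x y z : ℕ} (h1 : d.lt x y) (h2 : d.lt y z) : d.lt x z := by
  rcases h1 with ⟨hxy, h1⟩ | ⟨hxy, h1⟩
  · rcases h2 with ⟨hyz, h2⟩ | ⟨hyz, h2⟩
    · left; exact ⟨by omega, d.D_trans hxy h1 h2⟩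
    · rcases lt_trichotomy x z with h | h | h
      · left; exact ⟨h, d.D_mono h1 hyz.le⟩
      · subst h; exact absurd h1 h2
      · right; exact ⟨h, fun h3 => h2 (d.D_trans h h3 h1)⟩
  · rcases h2 with ⟨hyz, h2⟩ | ⟨hyz, h2⟩
    · rcases lt_trichotomy x z with h | h | h
      · exact absurd (d.D_mono h2 h.le) h1
      · subst h; exact absurd h2 h1
      · right; exact ⟨h, fun h3 => h1 (d.D_trans hyz h2 h3)⟩
    · right; exact ⟨by omega, fun h3 => h2 (d.D_mono h3 hxy.le)⟩

theorem lt_total {x y : ℕ} (h : x ≠ y) : d.lt x y ∨ d.lt y x := by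
  rcases lt_or_gt_of_ne h with h | h
  · by_cases h' : d.D x y
    · left; left; exact ⟨h, h'⟩
    · right; right; exact ⟨h, h'⟩
  · by_cases h' : d.D y x
    · right; left; exact ⟨h, h'⟩
    · left; right; exact ⟨h, h'⟩

theorem D_zero (t : ℕ) : d.D 0 t := by
  intro u hu _ hact
  have h0 : ¬ d.act 0 = true := by rw [d.act0]; simp
  rw [d.fv_nact h0, d.fv_act hact]
  omega

theorem le_refl (x : ℕ) : d.le x x := Or.inl rfl

theorem le_trans {x y z : ℕ} (h1 : d.le x y) (h2 : d.le y z) : d.le x z := by
  rcases h1 with rfl | h1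
  · exact h2
  · rcases h2 with rfl | h2
    · exact Or.inr h1
    · exact Or.inr (d.lt_trans h1 h2)

theorem le_antisymm {x y : ℕ} (h1 : d.le x y) (h2 : d.le y x) : x = y := by
  rcases h1 with rfl | h1
  · rfl
  · rcases h2 with rfl | h2
    · rfl
    · exact absurd (d.lt_trans h1 h2) (d.lt_irrefl _)

theorem le_total (x y : ℕ) : d.le x y ∨ d.le y x := by
  by_cases h : x = y
  · left; left; exact h
  · rcases d.lt_total h with h | h
    · left; right; exact h
    · right; right; exact h

theorem zero_le (x : ℕ) : d.le 0 x := by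
  by_cases h : x = 0
  · left; exact h.symm
  · right; left; exact ⟨by omega, d.D_zero x⟩

theorem T_fin {s : ℕ} (h : d.T s) : {x | d.lt x s}.Finite := by
  refine (Set.finite_lt_nat s).subset ?_
  rintro x (⟨hx, -⟩ | ⟨hx, hD⟩)
  · exact hx
  · exact absurd (fun u hu _ ha => h u hu ha) hD

theorem nT_fin {s : ℕ} (h : ¬ d.T s) : {x | d.le s x}.Finite := by
  unfold T at h
  push Not at h
  obtain ⟨u, hu, ha, hv⟩ := h
  refine (Set.finite_lt_nat u).subset ?_
  rintro x (rfl | hx | hx)
  · exact hu
  · show x < u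
    by_contra hux
    push Not at hux
    have := hx.2 u hu hux ha
    omega
  · exact hx.1.trans hu

theorem compl_le (s : ℕ) : {x | d.le s x}ᶜ = {x | d.lt x s} := by
  ext x
  simp only [mem_compl_iff, mem_ofPred_eq]
  constructor
  · intro h
    have h1 : x ≠ s := fun e => h (Or.inl e.symm)
    rcases d.lt_total h1 with h2 | h2
    · exact h2
    · exact absurd (Or.inr h2) h
  · rintro h (rfl | h')
    · exact d.lt_irrefl _ h
    · exact d.lt_irrefl _ (d.lt_trans h h')

theorem fc_le (s : ℕ) : FC {x | d.le s x} := by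
  by_cases h : d.T s
  · right; rw [compl_le]; exact d.T_fin h
  · left; exact d.nT_fin h

/-- True stages of arbitrarily large value. -/
theorem T_unb (c : ℕ) : ∃ s, d.T s ∧ c + 1 ≤ d.fv s := by
  -- a bound beyond which all active stages have value > c
  have hB : ∀ c, ∃ B, ∀ n, B ≤ n → d.act n = true → c < d.v n := by
    intro c
    induction c with
    | zero =>
      by_cases h : ∃ n, d.act n = true ∧ d.v n = 0
      · obtain ⟨n, hn, hv⟩ := h
        refine ⟨n + 1, fun m hm hma => ?_⟩
        rcases Nat.eq_zero_or_pos (d.v m) with h0 | h0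
        · have := d.inj n m hn hma (by omega)
          omega
        · exact h0
      · refine ⟨0, fun m _ hma => ?_⟩
        rcases Nat.eq_zero_or_pos (d.v m) with h0 | h0
        · exact absurd ⟨m, hma, h0⟩ h
        · exact h0
    | succ c ih =>
      obtain ⟨B, hB⟩ := ih
      by_cases h : ∃ n, d.act n = true ∧ d.v n = c + 1
      · obtain ⟨n, hn, hv⟩ := h
        refine ⟨max B (n + 1), fun m hm hma => ?_⟩
        have h1 := hB m (le_of_max_le_left hm) hma
        rcases Nat.lt_or_ge (c + 1) (d.v m) with h2 | h2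
        · exact h2
        · have := d.inj n m hn hma (by omega)
          have := le_of_max_le_right hm
          omega
      · refine ⟨B, fun m hm hma => ?_⟩
        have h1 := hB m hm hma
        rcases Nat.lt_or_ge (c + 1) (d.v m) with h2 | h2
        · exact h2
        · exact absurd ⟨m, hma, by omega⟩ h
  obtain ⟨B, hB⟩ := hB c
  by_cases h : ∃ n, max B (c + 1) ≤ n ∧ d.act n = true
  · -- take one of least value
    classical
    have hex : ∃ w, ∃ n, (max B (c + 1) ≤ n ∧ d.act n = true) ∧ d.v n = w := by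
      obtain ⟨n, hn⟩ := h
      exact ⟨_, n, hn, rfl⟩
    obtain ⟨s, ⟨hs, hsa⟩, hsv⟩ := Nat.find_spec hex
    refine ⟨s, ?_, ?_⟩
    · intro u hu hua
      have h1 : Nat.find hex ≤ d.v u := Nat.find_min' hex ⟨u, ⟨by omega, hua⟩, rfl⟩
      have h2 : d.v u ≠ d.v s := fun e => by
        have := d.inj u s hua hsa e
        omega
      rw [d.fv_act hsa, d.fv_act hua]
      omega
    · have := hB s (le_of_max_le_left hs) hsa
      rw [d.fv_act hsa]
      omega
  · refine ⟨max B (c + 1), ?_, ?_⟩
    · intro u hu hua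
      exact absurd ⟨u, hu.le, hua⟩ h
    · have h1 : ¬ d.act (max B (c + 1)) = true := fun h2 => h ⟨_, le_rfl, h2⟩
      rw [d.fv_nact h1]
      exact le_max_right _ _

/-- True stages beyond any bound. -/
theorem T_large (N : ℕ) : ∃ s, d.T s ∧ N < s := by
  obtain ⟨s, hs, hc⟩ := d.T_unb (N + 1)
  refine ⟨s, hs, ?_⟩
  have := d.fv_le s
  omega

theorem succ_aux (s : ℕ) (hfin : ∃ F : Finset ℕ, F.Nonempty ∧ (∀ x ∈ F, d.lt s x) ∧
    (∀ x, d.lt s x → x ∈ F ∨ ∃ y ∈ F, d.lt y x)) :
    ∃ t, ∀ x, d.le t x ↔ (d.le s x ∧ x ≠ s) := by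
  obtain ⟨F, hF, h1, h2⟩ := hfin
  have hleast : ∃ x ∈ F, ∀ y ∈ F, d.le x y := by
    clear h1 h2
    induction hF using Finset.Nonempty.cons_induction with
    | singleton a => exact ⟨a, by simp, by simp [d.le_refl]⟩
    | cons a s ha hs ih =>
      obtain ⟨x, hx, hm⟩ := ih
      rcases d.le_total a x with h | h
      · refine ⟨a, by simp, ?_⟩
        intro y hy
        rcases Finset.mem_cons.1 hy with rfl | hy
        · exact d.le_refl _
        · exact d.le_trans h (hm y hy)
      · refine ⟨x, by simp [hx], ?_⟩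
        intro y hy
        rcases Finset.mem_cons.1 hy with rfl | hy
        · exact h
        · exact hm y hy
  obtain ⟨t, ht, hm⟩ := hleast
  refine ⟨t, fun x => ?_⟩
  constructor
  · intro h
    have h3 : d.lt s x := by
      rcases h with rfl | h
      · exact h1 _ ht
      · exact d.lt_trans (h1 _ ht) h
    exact ⟨Or.inr h3, fun e => d.lt_irrefl s (e ▸ h3)⟩
  · rintro ⟨h, hne⟩
    rcases h with rfl | h
    · exact absurd rfl hne
    · rcases h2 x h with h3 | ⟨y, hy, h3⟩
      · exact hm x h3
      · exact d.le_trans (hm y hy) (Or.inr h3)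

theorem succ_le (s : ℕ) :
    (∀ x, d.le s x → x = s) ∨ ∃ t, ∀ x, d.le t x ↔ (d.le s x ∧ x ≠ s) := by
  classical
  by_cases h : d.T s
  · right
    obtain ⟨t, hT, hst⟩ := d.T_large s
    have hlt : d.lt s t := Or.inl ⟨hst, fun u hu _ ha => h u hu ha⟩
    apply d.succ_aux
    have hf : {x | d.lt s x ∧ d.le x t}.Finite := by
      refine ((d.T_fin hT).union (Set.finite_singleton t)).subset ?_
      rintro x ⟨-, (rfl | hx)⟩
      · right; rfl
      · left; exact hx
    refine ⟨hf.toFinset, ⟨t, ?_⟩, ?_, ?_⟩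
    · rw [Set.Finite.mem_toFinset]; exact ⟨hlt, d.le_refl _⟩
    · intro x hx
      rw [Set.Finite.mem_toFinset] at hx
      exact hx.1
    · intro x hx
      by_cases hxt : d.le x t
      · left; rw [Set.Finite.mem_toFinset]; exact ⟨hx, hxt⟩
      · right
        refine ⟨t, ?_, ?_⟩
        · rw [Set.Finite.mem_toFinset]; exact ⟨hlt, d.le_refl _⟩
        · rcases d.lt_total (show t ≠ x from fun e => hxt (Or.inl e.symm)) with h3 | h3
          · exact h3
          · exact absurd (Or.inr h3) hxt
  · have hf : {x | d.lt s x}.Finite := (d.nT_fin h).subset (fun x hx => Or.inr hx)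
    by_cases hne : {x | d.lt s x}.Nonempty
    · right
      apply d.succ_aux
      refine ⟨hf.toFinset, ?_, ?_, ?_⟩
      · obtain ⟨y, hy⟩ := hne
        exact ⟨y, by rw [Set.Finite.mem_toFinset]; exact hy⟩
      · intro x hx
        rw [Set.Finite.mem_toFinset] at hx
        exact hx
      · intro x hx
        left; rw [Set.Finite.mem_toFinset]; exact hx
    · left
      intro x hx
      rcases hx with rfl | hx
      · rfl
      · exact absurd ⟨x, hx⟩ hne

/-- The order of type `ω + ω*`. -/
def ord : Ord where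
  le := d.le
  refl := d.le_refl
  trans := fun _ _ _ h h' => d.le_trans h h'
  antisymm := fun _ _ h h' => d.le_antisymm h h'
  total := d.le_total
  zero_le := d.zero_le
  fc := d.fc_le
  succ := d.succ_le

end Dat

end Pool.Agent.U44.IA
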